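import Pool.Agent.K3h87.Tor.Four
import Pool.Agent.K3h87.Tor.Bad
import Pool.Agent.K3h87.Tor.Three
import Pool.Agent.K3h87.Tor.Toroidal

set_option autoImplicit false

/-!
# A nonplanar toroidal graph of jump two without planar witnesses (MP_9dd57a, Q1)

The graph `GG` (`Pool/Agent/K3h87/Tor/Graph.lean`) has 84 vertices and 236 edges. It contains a
4-cycle `u y z v` joined completely to three independent vertices (poles); this part contains
`K_{3,3}`. Eleven planar gadgets of seven vertices are attached to the ends `u`, `v` of the edge
`uv`: each consists of a vertex `w` and two triangles `x₁ y₁ z₁`, `x₂ y₂ z₂`, where `w, x₁, x₂` are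
joined to `u` and `v`, `y₁, y₂` to `u` and `w`, and `z₁, z₂` to `v` and `w`.

* Each gadget excludes at most one pair of colours of `(u, v)`, whatever its lists of four colours
  are, and the part with the poles excludes at most one pair, and none if one of the edges between
  a pole and the cycle is absent. If `u`, `v` have the same list of four colours, there are twelve
  pairs of different colours, and all of them can be excluded. So `GG` is not 4-choosable, but it
  becomes 4-choosable if such an edge is deleted, which is the case for all planar subgraphs.
* `GG` is 3-colourable, and planar graphs with a 2-colouring are 3-choosable.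
-/

namespace Pool.Agent.Results.MP_9dd57a_co.ToroidalJump

open SimpleGraph
open Pool.Agent.H239R2.Planar Pool.Agent.K3h87.Tor

theorem choosable_mono {V : Type} {G : SimpleGraph V} {j k : ℕ} (h : Choosable G j) (hjk : j ≤ k) :
    Choosable G k := fun L hL => h L (fun v => hjk.trans (hL v))

theorem choosable_card {V : Type} [Fintype V] (G : SimpleGraph V) :
    Choosable G (Fintype.card V) := by
  classical
  intro L hL
  obtain ⟨c, hc1, hc2⟩ := (Finset.all_card_le_biUnion_card_iff_exists_injective L).1 (by
    intro s
    rcases s.eq_empty_or_nonempty with rfl | ⟨v, hv⟩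
    · simp
    · calc s.card ≤ Fintype.card V := Finset.card_le_univ s
        _ ≤ (L v).card := hL v
        _ ≤ (s.biUnion L).card := Finset.card_le_card (Finset.subset_biUnion_of_mem L hv))
  exact ⟨c, hc2, fun u v huv h => huv.ne (hc1 h)⟩

theorem list_le {V : Type} {G : SimpleGraph V} {k : ℕ} (h : Choosable G k) :
    listChromaticNumber G ≤ k := Nat.sInf_le h

theorem inj3 : ∀ i i' : Fin 3, (![0, 2, 3] i : Fin 4) = ![0, 2, 3] i' → i = i' := by decide

/-- the missing edge of a planar subgraph -/
theorem missing (H : GG.Subgraph) (hH : IsPlanar H.coe) :
    ∃ (j : Fin 3) (s : Fin 4), ¬ H.Adj (po j) (cy s) := by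
  by_contra hn
  push Not at hn
  have hpo : ∀ j, po j ∈ H.verts := fun j => H.edge_vert (hn j 0)
  have hcy : ∀ s, cy s ∈ H.verts := fun s => H.edge_vert ((hn 0 s).symm)
  have : Fintype H.verts := Fintype.ofFinite _
  refine no_K33 H.coe hH (fun i => ⟨po i, hpo i⟩)
    (fun j => ⟨cy (![0, 2, 3] j), hcy _⟩) ?_ ?_ ?_ ?_
  · intro i i' h
    have := congrArg Subtype.val h
    simpa using this
  · intro i i' h
    have := congrArg Subtype.val h
    simp only [Sum.inl.injEq] at this
    exact inj3 _ _ this
  · intro i j
    exact hn i _
  · intro i j h
    have := congrArg Subtype.val h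
    simp at this

/-- planar subgraphs are 4-choosable -/
theorem four_coe (H : GG.Subgraph) (hH : IsPlanar H.coe) : Choosable H.coe 4 := by
  classical
  obtain ⟨j, s, hjs⟩ := missing H hH
  intro L hL
  obtain ⟨c, hc1, hc2⟩ := four H.Adj (fun x y h => H.adj_sub h) (fun x y h => SimpleGraph.Subgraph.Adj.symm h) j s hjs
    (fun x => if h : x ∈ H.verts then L ⟨x, h⟩ else {0, 1, 2, 3}) (by
      intro x
      by_cases h : x ∈ H.verts
      · simp only [h, dif_pos]; exact hL _
      · simp only [h, dif_neg, not_false_eq_true]; decide)
  refine ⟨fun x => c x.1, fun x => ?_, fun x y hxy => hc2 _ _ hxy⟩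
  have := hc1 x.1
  simp only [x.2, dif_pos] at this
  exact this

/-- **Positive answer to Q1**: there is a nonplanar toroidal graph `G` with `jump G ≥ 2`, all of
whose planar subgraphs `H` have `jump H < 2`. -/
theorem result : ∃ (V : Type) (_ : Fintype V) (G : SimpleGraph V),
    ¬ IsPlanar G ∧ IsToroidal G ∧ 2 ≤ jump G ∧
    ∀ H : G.Subgraph, IsPlanar H.coe → jump H.coe < 2 := by
  refine ⟨VV, inferInstance, GG, ?_, toroidal, ?_, ?_⟩
  · intro h
    refine no_K33 GG h (fun i => po i) (fun j => cy (![0, 2, 3] j)) ?_ ?_ ?_ ?_
    · intro i i' h
      simpa using h
    · intro i i' h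
      simp only [Sum.inl.injEq] at h
      exact inj3 _ _ h
    · intro i j; rfl
    · intro i j h
      simp at h
  · have h1 : 5 ≤ listChromaticNumber GG := by
      apply le_csInf ⟨_, choosable_card GG⟩
      intro k hk
      by_contra hlt
      exact not_four (choosable_mono hk (by omega))
    have h2 : GG.chromaticNumber.toNat ≤ 3 := by
      have := colorable_three.chromaticNumber_le
      exact ENat.toNat_le_of_le_natCast this
    unfold jump
    omega
  · intro H hH
    have hfin : Finite H.verts := inferInstance
    have hcol := colorable_chromaticNumber_of_fintype H.coe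
    set n := H.coe.chromaticNumber.toNat with hn
    unfold jump
    rw [← hn]
    rcases Nat.lt_or_ge n 3 with h | h
    · rcases Nat.lt_or_ge n 2 with h' | h'
      · -- no edges
        have hne : ∀ x y, ¬ H.coe.Adj x y := by
          intro x y hxy
          obtain ⟨C⟩ := hcol
          have := C.valid hxy
          apply this
          apply Fin.ext
          have h1 := (C x).isLt
          have h2 := (C y).isLt
          omega
        have hch : Choosable H.coe 1 := by
          intro L hL
          have : ∀ x, (L x).Nonempty := fun x => by
            rw [← Finset.card_pos]; exact hL x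
          exact ⟨fun x => (this x).choose, fun x => (this x).choose_spec,
            fun x y h => absurd h (hne x y)⟩
        have := list_le hch
        omega
      · have h2 : n = 2 := by omega
        rw [h2] at hcol
        obtain ⟨C⟩ := hcol
        have hch : Choosable H.coe 3 := by
          apply three_choosable H.coe hH (fun x => decide (C x = 0))
          intro x y hxy
          have h1 := C.valid hxy
          intro h3
          apply h1
          have h4 : (C x = 0 ↔ C y = 0) := by simpa using h3
          have h5 : ∀ p q : Fin 2, (p = 0 ↔ q = 0) → p = q := by decide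
          exact h5 _ _ h4
        have := list_le hch
        omega
    · have := list_le (four_coe H hH)
      omega

end Pool.Agent.Results.MP_9dd57a_co.ToroidalJump
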